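import Pool.Agent.KS6_69.Lin.Min
import Pool.Agent.KS6_69.Lin.Surj

/-!
# MP_236854_co: explicit description of the space of lineons over every finite abelian group

`Lineon K x`: `x` is an accumulation point of the points `p(-, M_A)`, `A ⊆ K^m`, `m ≥ 1`; the
lineons of the problem are the case `K = ZMod 2`. `ELineon e x`: the same for all subsets `A` of all
finite abelian groups `G` with `e G = 0`.

Idea of the proof. If `e G = 0` then `w ∈ G^n` gives the homomorphism `x ↦ ∑ x_j w_j` from
`(Z/e)^n` to `G`. If every standard basis vector occurs among the columns of the tuple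
`(x_1, …, x_k) ∈ ((Z/e)^n)^k`, which fails with probability at most `k e^k / n`, then the images of
the `x_i` under a random such homomorphism are independent and uniform in `G`. By the second moment
method every `A ⊆ G` has the same sampling densities as a subset of `(Z/e)^n` up to an error that is
explicit in `n` and independent of `G` and `A`. Conversely every subset of `(Z/e)^n` gives a point
with rational coordinates in the set of `K`-lineons, for every `K` of exponent `e`, since such a
group has a homomorphism onto `Z/e`. So these rational points form explicit finite nets.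
-/

set_option autoImplicit false

namespace Pool.Agent.Results.MP_236854_co.AbelianLineons
open Pool.Agent.KS6_69.Lin Pool.Agent.KS6_69.H37

lemma lineon_iff {e : ℕ} (he : 2 ≤ e) (K : Type) [AddCommGroup K] [Fintype K]
    (hK : AddMonoid.exponent K = e) (x : Cls → ℝ) : Lineon K x ↔ ELineon e x := by
  have : NeZero e := ⟨by omega⟩
  have : Fact (1 < e) := ⟨he⟩
  obtain ⟨π, hπ⟩ := exists_surj K e hK
  refine ⟨elineon_of_lineon fun g => ?_, lineon_of_elineon π hπ⟩
  rw [← hK]
  exact AddMonoid.exponent_nsmul_eq_zero g

/-- The code map `cls` enumerates the isomorphism classes of finite models. There are a c.e. family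
`F` of (exponent, polynomial) pairs and a computable function `f` such that for every nontrivial
finite abelian group `K` of exponent `e` (Q1 is `K = ZMod 2`, `e = 2`): the `K`-lineons are the
accumulation points of all `p(-, M_A)`, `A` in any finite abelian group killed by `e`; they are
exactly the solutions of the inequalities `F (e, ·)`; `F (e, ·)` consists of all polynomials which
are positive on the set of `K`-lineons; and `f` computes the minimum of each polynomial on this set
to any precision. -/
theorem result : Function.Surjective cls ∧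
    ∃ (F : ℕ × Poly → Prop) (f : ℕ × Poly × ℕ → ℤ), REPred F ∧ Computable f ∧
      ∀ (e : ℕ) (K : Type) [AddCommGroup K] [Fintype K] [Nontrivial K],
        AddMonoid.exponent K = e →
        (∀ x, Lineon K x ↔ ELineon e x) ∧
        (∀ x, Lineon K x ↔ ∀ P, F (e, P) → 0 ≤ ev P x) ∧
        (∀ P, F (e, P) ↔ ∀ y, Lineon K y → 0 < ev P y) ∧
        ∀ (P : Poly) (N : ℕ), ∃ x₀, Lineon K x₀ ∧ (∀ y, Lineon K y → ev P x₀ ≤ ev P y) ∧
          |N * ev P x₀ - f (e, P, N)| ≤ 1 := by
  obtain ⟨f, hf, hf'⟩ := computable_min
  refine ⟨cls_surj, _, f, re_pos, hf, fun e K _ _ _ hK => ?_⟩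
  have h2 : 2 ≤ e := by
    have h0 : AddMonoid.exponent K ≠ 0 := AddMonoid.exponent_ne_zero_of_finite
    have h1 : AddMonoid.exponent K ≠ 1 := fun h => by
      have := AddMonoid.exp_eq_one_iff.1 h
      exact not_subsingleton K this
    omega
  have key := lineon_iff h2 K hK
  refine ⟨key, fun x => ⟨fun hx P hP => (hP.2 x ((key x).1 hx)).le, fun h => ?_⟩, fun P => ?_,
    fun P N => ?_⟩
  · by_contra hx
    obtain ⟨P, h1, h3⟩ := separate (S := {y | ELineon e y}) isClosed_elineon
      (x := x) fun h => hx ((key x).2 h)
    exact absurd (h P ⟨h2, h1⟩) (not_le.2 h3)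
  · exact ⟨fun h y hy => h.2 y ((key y).1 hy), fun h => ⟨h2, fun y hy => h y ((key y).2 hy)⟩⟩
  · obtain ⟨x₀, h1, h3, h4⟩ := hf' e h2 P N
    exact ⟨x₀, (key x₀).2 h1, fun y hy => h3 y ((key y).1 hy), h4⟩

end Pool.Agent.Results.MP_236854_co.AbelianLineons
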